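import Pool.Agent.H7.ALN.S1

/-!
# ALN: basic facts about the definitions
-/

set_option autoImplicit false

namespace Pool.ALN

@[simp] theorem cn_zero {n : ℕ} (z : ℤ) (v : Fin n → ℤ) : cn z v 0 = z := rfl

@[simp] theorem cn_succ {n : ℕ} (z : ℤ) (v : Fin n → ℤ) (i : Fin n) : cn z v i.succ = v i := rfl

@[simp] theorem tl_cn {n : ℕ} (z : ℤ) (v : Fin n → ℤ) : tl (cn z v) = v := rfl

theorem cn_tl {n : ℕ} (a : Fin (n + 1) → ℤ) : cn (a 0) (tl a) = a := by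
  funext i
  refine Fin.cases ?_ (fun j => ?_) i
  · rfl
  · rfl

theorem sum_cn {n : ℕ} (z : ℤ) (v : Fin n → ℤ) : ∑ i, cn z v i = z + ∑ i, v i := by
  rw [Fin.sum_univ_succ]
  rfl

theorem sum_tl {n : ℕ} (a : Fin (n + 1) → ℤ) : ∑ i, a i = a 0 + ∑ i, tl a i := by
  rw [Fin.sum_univ_succ]
  rfl

theorem sum_it {n : ℕ} (a : Fin (n + 1) → ℤ) : ∑ i, a i = ∑ i, it a i + a (Fin.last n) := by
  rw [Fin.sum_univ_castSucc]
  rfl

theorem mem_Sx {n : ℕ} {w : ℤ} {a : Fin n → ℤ} :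
    a ∈ Sx n w ↔ (∀ i, 0 ≤ a i) ∧ ∑ i, a i < w := by
  unfold Sx
  rw [Finset.mem_filter, Fintype.mem_piFinset]
  constructor
  · rintro ⟨h1, h2⟩
    exact ⟨fun i => (Finset.mem_Ico.1 (h1 i)).1, h2⟩
  · rintro ⟨h1, h2⟩
    refine ⟨fun i => Finset.mem_Ico.2 ⟨h1 i, lt_of_le_of_lt ?_ h2⟩, h2⟩
    exact Finset.single_le_sum (f := a) (fun j _ => h1 j) (Finset.mem_univ i)

theorem Sx_mono {n : ℕ} {w w' : ℤ} (h : w ≤ w') : Sx n w ⊆ Sx n w' := by
  intro a ha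
  rw [mem_Sx] at ha ⊢
  exact ⟨ha.1, lt_of_lt_of_le ha.2 h⟩

theorem mem_Ly {n : ℕ} {Z : Finset (Fin (n + 1) → ℤ)} {z : ℤ} {v : Fin n → ℤ} :
    v ∈ Ly Z z ↔ cn z v ∈ Z := by
  unfold Ly
  rw [Finset.mem_image]
  constructor
  · rintro ⟨a, ha, rfl⟩
    rw [Finset.mem_filter] at ha
    rw [← ha.2, cn_tl]
    exact ha.1
  · intro h
    exact ⟨cn z v, Finset.mem_filter.2 ⟨h, rfl⟩, rfl⟩

theorem tl_mem_Ly {n : ℕ} {Z : Finset (Fin (n + 1) → ℤ)} {a : Fin (n + 1) → ℤ} (h : a ∈ Z) :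
    tl a ∈ Ly Z (a 0) := by
  rw [mem_Ly, cn_tl]
  exact h

theorem Ly_mono {n : ℕ} {Y Z : Finset (Fin (n + 1) → ℤ)} (h : Y ⊆ Z) (z : ℤ) :
    Ly Y z ⊆ Ly Z z := by
  intro v hv
  rw [mem_Ly] at hv ⊢
  exact h hv

theorem mem_B {n m : ℕ} {Z : Finset (Fin n → ℤ)} {u : Fin n → ℤ} :
    u ∈ B m Z ↔ u ∈ Z ∧ ∃ f ∈ Pf n m, f u ≠ 0 ∧ ∀ a ∈ Z, lx a u → f a = 0 := by
  classical
  simp only [B, Finset.mem_filter]

theorem mem_NB {n m : ℕ} {Z : Finset (Fin n → ℤ)} {u : Fin n → ℤ} :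
    u ∈ NB m Z ↔ u ∈ Z ∧ u ∉ B m Z := by
  classical
  simp only [NB, Finset.mem_filter]

theorem NB_sub {n : ℕ} (m : ℕ) (Z : Finset (Fin n → ℤ)) : NB m Z ⊆ Z := fun _ h =>
  (mem_NB.1 h).1

theorem B_sub {n : ℕ} (m : ℕ) (Z : Finset (Fin n → ℤ)) : B m Z ⊆ Z := fun _ h =>
  (mem_B.1 h).1

theorem sdiff_B {n : ℕ} (m : ℕ) (Z : Finset (Fin n → ℤ)) : Z \ B m Z = NB m Z := by
  ext u
  rw [Finset.mem_sdiff, mem_NB]

/-! ### the order -/

theorem lx_irrefl {n : ℕ} (a : Fin n → ℤ) : ¬ lx a a := fun ⟨_, _, h⟩ => lt_irrefl _ h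

theorem lx_trans {n : ℕ} {a b c : Fin n → ℤ} (h₁ : lx a b) (h₂ : lx b c) : lx a c := by
  obtain ⟨i, hi, hi'⟩ := h₁
  obtain ⟨j, hj, hj'⟩ := h₂
  rcases lt_trichotomy i j with h | h | h
  · exact ⟨i, fun k hk => (hi k hk).trans (hj k (hk.trans h)), (hj i h) ▸ hi'⟩
  · subst h
    exact ⟨i, fun k hk => (hi k hk).trans (hj k hk), hi'.trans hj'⟩
  · exact ⟨j, fun k hk => (hi k (hk.trans h)).trans (hj k hk), (hi j h).symm ▸ hj'⟩

theorem lx_asymm {n : ℕ} {a b : Fin n → ℤ} (h₁ : lx a b) : ¬ lx b a := fun h₂ =>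
  lx_irrefl a (lx_trans h₁ h₂)

theorem lx_tri {n : ℕ} (a b : Fin n → ℤ) : lx a b ∨ a = b ∨ lx b a := by
  classical
  by_cases h : a = b
  · exact Or.inr (Or.inl h)
  · have h1 : ∃ i, a i ≠ b i := by
      by_contra hc
      push Not at hc
      exact h (funext hc)
    obtain ⟨i, hi, hmin⟩ : ∃ i, a i ≠ b i ∧ ∀ j, j < i → a j = b j := by
      obtain ⟨i₀, hi₀⟩ := h1
      have hne : (Finset.univ.filter fun i => a i ≠ b i).Nonempty :=
        ⟨i₀, Finset.mem_filter.2 ⟨Finset.mem_univ _, hi₀⟩⟩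
      refine ⟨(Finset.univ.filter fun i => a i ≠ b i).min' hne, ?_, ?_⟩
      · exact (Finset.mem_filter.1 (Finset.min'_mem _ hne)).2
      · intro j hj
        by_contra hc
        have h2 : j ∈ Finset.univ.filter fun i => a i ≠ b i :=
          Finset.mem_filter.2 ⟨Finset.mem_univ _, hc⟩
        exact absurd (Finset.min'_le _ j h2) (not_le.2 hj)
    rcases lt_or_gt_of_ne hi with h2 | h2
    · exact Or.inl ⟨i, hmin, h2⟩
    · exact Or.inr (Or.inr ⟨i, fun j hj => (hmin j hj).symm, h2⟩)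

theorem lx_cn {n : ℕ} (x y : ℤ) (u v : Fin n → ℤ) :
    lx (cn x u) (cn y v) ↔ x < y ∨ (x = y ∧ lx u v) := by
  constructor
  · rintro ⟨i, hi, hi'⟩
    revert hi hi'
    refine Fin.cases ?_ (fun j => ?_) i
    · intro _ h
      exact Or.inl h
    · intro h1 h2
      refine Or.inr ⟨h1 0 (Fin.succ_pos j), j, fun k hk => ?_, h2⟩
      exact h1 k.succ (Fin.succ_lt_succ_iff.2 hk)
  · rintro (h | ⟨rfl, i, hi, hi'⟩)
    · exact ⟨0, fun j hj => absurd hj (Fin.not_lt_zero j), h⟩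
    · refine ⟨i.succ, fun j => ?_, hi'⟩
      refine Fin.cases ?_ (fun k => ?_) j
      · intro _
        rfl
      · intro hk
        exact hi k (Fin.succ_lt_succ_iff.1 hk)

theorem lx_tl {n : ℕ} (a b : Fin (n + 1) → ℤ) :
    lx a b ↔ a 0 < b 0 ∨ (a 0 = b 0 ∧ lx (tl a) (tl b)) := by
  rw [← lx_cn, cn_tl, cn_tl]

theorem lx_it {n : ℕ} (a b : Fin (n + 1) → ℤ) :
    lx a b ↔ lx (it a) (it b) ∨ (it a = it b ∧ a (Fin.last n) < b (Fin.last n)) := by
  constructor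
  · rintro ⟨i, hi, hi'⟩
    revert hi hi'
    refine Fin.lastCases ?_ (fun j => ?_) i
    · intro h1 h2
      exact Or.inr ⟨funext fun k => h1 k.castSucc (Fin.castSucc_lt_last k), h2⟩
    · intro h1 h2
      exact Or.inl ⟨j, fun k hk => h1 k.castSucc (Fin.castSucc_lt_castSucc_iff.2 hk), h2⟩
  · rintro (⟨i, hi, hi'⟩ | ⟨h1, h2⟩)
    · refine ⟨i.castSucc, fun j => ?_, hi'⟩
      refine Fin.lastCases ?_ (fun k => ?_) j
      · intro h
        exact absurd h (not_lt.2 (Fin.castSucc_lt_last i).le)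
      · intro hk
        exact hi k (Fin.castSucc_lt_castSucc_iff.1 hk)
    · refine ⟨Fin.last n, fun j => ?_, h2⟩
      refine Fin.lastCases ?_ (fun k => ?_) j
      · intro h
        exact absurd h (lt_irrefl _)
      · intro _
        exact congrFun h1 k

/-- A nonempty finite set has a first element. -/
theorem lx_min {n : ℕ} (Z : Finset (Fin n → ℤ)) (h : Z.Nonempty) :
    ∃ u ∈ Z, ∀ a ∈ Z, ¬ lx a u := by
  classical
  induction Z using Finset.induction_on with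
  | empty => exact absurd h (by simp)
  | insert b Z hb ih =>
    rcases Z.eq_empty_or_nonempty with h1 | h1
    · refine ⟨b, Finset.mem_insert_self _ _, fun a ha => ?_⟩
      rw [h1] at ha
      rw [Finset.mem_insert] at ha
      rcases ha with rfl | ha
      · exact lx_irrefl _
      · exact absurd ha (Finset.notMem_empty _)
    · obtain ⟨u, hu, hmin⟩ := ih h1
      by_cases hbu : lx b u
      · refine ⟨b, Finset.mem_insert_self _ _, fun a ha => ?_⟩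
        rw [Finset.mem_insert] at ha
        rcases ha with rfl | ha
        · exact lx_irrefl _
        · exact fun hc => hmin a ha (lx_trans hc hbu)
      · refine ⟨u, Finset.mem_insert_of_mem hu, fun a ha => ?_⟩
        rw [Finset.mem_insert] at ha
        rcases ha with rfl | ha
        · exact hbu
        · exact hmin a ha

/-! ### the process -/

theorem Zp_zero (n m : ℕ) (w : ℤ) : Zp n m w 0 = Sx (n + 1) w := rfl

theorem Zp_succ (n m : ℕ) (w : ℤ) (p : ℕ) : Zp n m w (p + 1) = NB m (Zp n m w p) := by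
  unfold Zp
  rw [Function.iterate_succ_apply']

theorem Zp_anti (n m : ℕ) (w : ℤ) {p q : ℕ} (h : p ≤ q) : Zp n m w q ⊆ Zp n m w p := by
  induction q, h using Nat.le_induction with
  | base => exact fun _ h => h
  | succ q _ ih =>
    rw [Zp_succ]
    exact (NB_sub _ _).trans ih

end Pool.ALN
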