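import Pool.Agent.H7.ALN.SAN

/-!
# ALN: row END (the theorem on the process)
-/

set_option autoImplicit false

namespace Pool.ALN

theorem t_end (hINV : INVStmt) (hWID : WIDStmt) (hBMN : BMNStmt) (hBCD : BCDStmt)
    (hUNL : UNLStmt) (hCRX : CRXStmt) (hSAN : SANStmt) : ENDStmt := by
  intro n
  obtain ⟨K, hK4, hK⟩ := hSAN n
  obtain ⟨c, hc⟩ := hCRX (n + 1)
  refine ⟨c * K ^ (n + 1 + 1), ?_⟩
  intro m s w hm hs
  have hmZ : (1 : ℤ) ≤ m := by exact_mod_cast hm
  -- as long as there is a low layer, a step removes at least `card (Sx (n + 2) m)` points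
  obtain ⟨x, hx⟩ : ∃ x : ℕ, x = (Sx (n + 2) m).card := ⟨_, rfl⟩
  have hx1 : 1 ≤ x := by
    rw [hx]
    refine Finset.card_pos.2 ⟨0, mem_Sx.2 ⟨fun _ => le_refl _, ?_⟩⟩
    simp only [Pi.zero_apply, Finset.sum_const_zero]
    omega
  have hK4' : (4 : ℤ) * m ≤ (K : ℤ) * m := by
    have : (4 : ℤ) ≤ K := by exact_mod_cast hK4
    nlinarith
  have hstep : ∀ p : ℕ, (∃ a ∈ Zp (n + 1) m w p, (K : ℤ) * m ≤ w - a 0) →
      (Zp (n + 1) m w (p + 1)).card + x ≤ (Zp (n + 1) m w p).card := by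
    rintro p ⟨a, ha, haw⟩
    have h1 : Wd m w (Zp (n + 1) m w p) (a 0 + 2 * m) :=
      hK m p w (a 0) hm ⟨tl a, tl_mem_Ly ha⟩ haw
    have h2 : Uni m (Zp (n + 1) m w p) := by
      refine hUNL (n + 1) m (a 0 + 2 * m) _ fun i hi => ?_
      refine (hWID (n + 1) m w (a 0 + 2 * m + i) _ hm (Zp_inv hINV _ _ _ _)).1 ?_
      exact wd_up hINV hWID hm (by omega) (by omega) h1
    have h3 := (hBCD (n + 2) m (Zp (n + 1) m w p)).2 h2
    have h4 := (hBMN (n + 2)).2.2.2 m (Zp (n + 1) m w p)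
    rw [Zp_succ, hx]
    omega
  have hlow : ∀ a ∈ Zp (n + 1) m w s, w - K * m ≤ a 0 := by
    intro a ha
    by_contra hcon
    have h1 : ∀ p : ℕ, p ≤ s + 1 →
        (Zp (n + 1) m w p).card + p * x ≤ (Sx (n + 2) w).card := by
      intro p
      induction p with
      | zero =>
        intro _
        rw [Zp_zero, zero_mul, add_zero]
      | succ p ih =>
        intro hp
        have h2 := ih (by omega)
        have h3 := hstep p ⟨a, Zp_anti _ _ _ (by omega) ha, by omega⟩
        have h4 : (p + 1) * x = p * x + x := by ring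
        omega
    have h2 := h1 (s + 1) (le_refl _)
    have h4 : (s + 1) * x = s * x + x := by ring
    rw [← hx] at hs
    omega
  have h5 := hc K m w (w - K * m) (Zp (n + 1) m w s) hm (by omega)
    (Zp_inv hINV (n + 1) m w s).sub hlow
  rw [Nat.add_comm s, Function.iterate_add_apply]
  exact h5

end Pool.ALN
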