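import Mathlib

/-!
# ALN: forms in any number of variables, the generic `k`-rank is at most the dimension count plus
a constant (statements)

Proof on paper: `/team-store/K_ALLN_helper7.md`. Here the most significant coordinate is the
coordinate `0`, and `w = D + 1`.
-/

set_option autoImplicit false

namespace Pool.ALN

/-! ### definitions -/

/-- The lexicographic order, the coordinate `0` is the most significant one. -/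
def lx {n : ℕ} (a b : Fin n → ℤ) : Prop := ∃ i, (∀ j, j < i → a j = b j) ∧ a i < b i

/-- Put a number in front. -/
def cn {n : ℕ} (z : ℤ) (v : Fin n → ℤ) : Fin (n + 1) → ℤ := Fin.cons z v

/-- Forget the coordinate `0`. -/
def tl {n : ℕ} (a : Fin (n + 1) → ℤ) : Fin n → ℤ := fun i => a i.succ

/-- Forget the last coordinate. -/
def it {n : ℕ} (a : Fin (n + 1) → ℤ) : Fin n → ℤ := fun i => a i.castSucc

/-- The polynomial functions of degree `< m` on `ℤ ^ n`. -/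
noncomputable def Pf (n m : ℕ) : Submodule ℂ ((Fin n → ℤ) → ℂ) :=
  Submodule.span ℂ {f | ∃ e : Fin n → ℕ, ∑ i, e i < m ∧ f = fun a => ∏ i, (a i : ℂ) ^ e i}

open Classical in
/-- The points which are removed by a point of multiplicity `m`. -/
noncomputable def B {n : ℕ} (m : ℕ) (Z : Finset (Fin n → ℤ)) : Finset (Fin n → ℤ) :=
  Z.filter fun u => ∃ f ∈ Pf n m, f u ≠ 0 ∧ ∀ a ∈ Z, lx a u → f a = 0

open Classical in
/-- The points which remain. -/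
noncomputable def NB {n : ℕ} (m : ℕ) (Z : Finset (Fin n → ℤ)) : Finset (Fin n → ℤ) :=
  Z.filter fun u => u ∉ B m Z

/-- The simplex: nonnegative coordinates, sum `< w`. -/
noncomputable def Sx (n : ℕ) (w : ℤ) : Finset (Fin n → ℤ) :=
  (Fintype.piFinset fun _ => Finset.Ico 0 w).filter fun a => ∑ i, a i < w

/-- Only the polynomial `0` of degree `< m` vanishes on `Z`. -/
def Uni {n : ℕ} (m : ℕ) (Z : Finset (Fin n → ℤ)) : Prop :=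
  ∀ f ∈ Pf n m, (∀ a ∈ Z, f a = 0) → f = 0

/-- The layer `a 0 = z`. -/
def Ly {n : ℕ} (Z : Finset (Fin (n + 1) → ℤ)) (z : ℤ) : Finset (Fin n → ℤ) :=
  (Z.filter fun a => a 0 = z).image tl

/-- Closed under `+ e i` as long as the sum stays `< w`. -/
def Up {n : ℕ} (w : ℤ) (Z : Finset (Fin n → ℤ)) : Prop :=
  ∀ a ∈ Z, ∀ i, ∑ j, a j + 1 < w → a + Pi.single i 1 ∈ Z

/-- Closed under `+ e 0 - e l` if the coordinate `l` is not `0`. -/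
def Sh {n : ℕ} (Z : Finset (Fin (n + 1) → ℤ)) : Prop :=
  ∀ a ∈ Z, ∀ l : Fin n, a l.succ ≠ 0 → a + (Pi.single 0 1 - Pi.single l.succ 1) ∈ Z

/-- The invariant of the process. -/
structure Inv {n : ℕ} (w : ℤ) (Z : Finset (Fin (n + 1) → ℤ)) : Prop where
  sub : Z ⊆ Sx (n + 1) w
  up : Up w Z
  sh : Sh Z

/-- The layer `z` is wide. -/
def Wd {n : ℕ} (m : ℕ) (w : ℤ) (Z : Finset (Fin (n + 1) → ℤ)) (z : ℤ) : Prop :=
  ∃ v ∈ Ly Z z, (m : ℤ) ≤ w - z - ∑ i, v i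

/-- The process, started from the simplex. -/
noncomputable def Zp (n m : ℕ) (w : ℤ) (p : ℕ) : Finset (Fin (n + 1) → ℤ) :=
  (NB m)^[p] (Sx (n + 1) w)

/-! ### polynomial functions -/

/-- PFA: algebra. -/
def PFAStmt : Prop :=
  ∀ n : ℕ, (∀ a b : ℕ, a ≤ b → Pf n a ≤ Pf n b) ∧
    (∀ (m : ℕ) (c : ℂ), (fun _ => c) ∈ Pf n (m + 1)) ∧
    (∀ (i : Fin n) (c : ℂ), (fun a => (a i : ℂ) - c) ∈ Pf n 2) ∧
    (∀ c : ℂ, (fun a : Fin n → ℤ => c - ∑ i, (a i : ℂ)) ∈ Pf n 2) ∧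
    (∀ (a b : ℕ) (f g : (Fin n → ℤ) → ℂ), f ∈ Pf n (a + 1) → g ∈ Pf n b →
      (fun x => f x * g x) ∈ Pf n (a + b))

/-- PFD: differences. -/
def PFDStmt : Prop :=
  ∀ (n m : ℕ) (e : Fin n → ℤ) (f : (Fin n → ℤ) → ℂ), f ∈ Pf n (m + 1) →
    (fun a => f (a + e) - f a) ∈ Pf n m

/-- PFT: restriction to a layer, and lifts. -/
def PFTStmt : Prop :=
  ∀ n m : ℕ, (∀ (z : ℤ) (f : (Fin (n + 1) → ℤ) → ℂ), f ∈ Pf (n + 1) m →
      (fun v => f (cn z v)) ∈ Pf n m) ∧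
    (∀ g ∈ Pf n m, (fun a => g (tl a)) ∈ Pf (n + 1) m) ∧
    (∀ g ∈ Pf n m, (fun a => g (it a)) ∈ Pf (n + 1) m)

/-- PFV: division by `a 0 - z`. -/
def PFVStmt : Prop :=
  ∀ (n m : ℕ) (z : ℤ) (f : (Fin (n + 1) → ℤ) → ℂ), f ∈ Pf (n + 1) (m + 1) →
    (∀ v, f (cn z v) = 0) → ∃ h ∈ Pf (n + 1) m, ∀ a, f a = ((a 0 : ℂ) - z) * h a

/-- SIM: a simplex is unisolvent. -/
def SIMStmt : Prop :=
  ∀ (n m : ℕ) (v : Fin n → ℤ) (Z : Finset (Fin n → ℤ)), (∀ c ∈ Sx n m, v + c ∈ Z) → Uni m Z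

/-! ### the sets `B` and `NB` -/

/-- BMN: monotonicity. -/
def BMNStmt : Prop :=
  ∀ (n : ℕ), (∀ (m : ℕ) (Y Z : Finset (Fin n → ℤ)), Y ⊆ Z → NB m Y ⊆ NB m Z) ∧
    (∀ (m m' : ℕ) (Z : Finset (Fin n → ℤ)), m ≤ m' → NB m' Z ⊆ NB m Z) ∧
    (∀ Z : Finset (Fin n → ℤ), NB 0 Z = Z) ∧
    (∀ (m : ℕ) (Z : Finset (Fin n → ℤ)), (NB m Z).card + (B m Z).card = Z.card)

/-- BCD: the number of points removed. -/
def BCDStmt : Prop :=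
  ∀ (n m : ℕ) (Z : Finset (Fin n → ℤ)), (B m Z).card ≤ (Sx n m).card ∧
    (Uni m Z → (Sx n m).card ≤ (B m Z).card)

/-- DUA: the dual basis. -/
def DUAStmt : Prop :=
  ∀ (n m : ℕ) (Z : Finset (Fin n → ℤ)), ∃ q : (Fin n → ℤ) → (Fin n → ℤ) → ℂ, ∀ u ∈ B m Z,
    q u ∈ Pf n m ∧ q u u = 1 ∧ ∀ a ∈ Z, a ≠ u → (a ∈ B m Z ∨ lx a u) → q u a = 0

/-- CLO: closure properties are preserved. -/
def CLOStmt : Prop :=
  ∀ (n m : ℕ) (e : Fin n → ℤ) (h : (Fin n → ℤ) → ℂ) (Z : Finset (Fin n → ℤ)),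
    (∀ u, lx u (u + e)) → h ∈ Pf n 2 → (∀ a ∈ Z, h a ≠ 0 → a + e ∈ Z) →
    ∀ a ∈ NB m Z, h a ≠ 0 → a + e ∈ NB m Z

/-- INV: the invariant. -/
def INVStmt : Prop :=
  ∀ (n m : ℕ) (w : ℤ), (Inv w (Sx (n + 1) w)) ∧
    (∀ Z : Finset (Fin (n + 1) → ℤ), Inv w Z → Inv w (NB m Z)) ∧
    (∀ Z : Finset (Fin n → ℤ), Z ⊆ Sx n w → Up w Z → Up w (NB m Z)) ∧
    (∀ (Z : Finset (Fin (n + 1) → ℤ)) (z : ℤ), Inv w Z → Up (w - z) (Ly Z z)) ∧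
    (∀ (Z : Finset (Fin (n + 1) → ℤ)) (z : ℤ), Inv w Z → Ly Z z ⊆ Sx n (w - z))

/-! ### layers -/

/-- LAL: the layer `z₀ + j` is hit with multiplicity at least `m - j` if there is nothing below
`z₀`. -/
def LALStmt : Prop :=
  ∀ (n m j : ℕ) (z₀ : ℤ) (Z : Finset (Fin (n + 1) → ℤ)), (∀ a ∈ Z, z₀ ≤ a 0) →
    Ly (NB m Z) (z₀ + j) ⊆ NB (m - j) (Ly Z (z₀ + j))

/-- LAU: and with multiplicity at most `m - j` if the layers `z₁, ..., z₁ + j - 1` are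
unisolvent. -/
def LAUStmt : Prop :=
  ∀ (n m j : ℕ) (z₁ : ℤ) (Z : Finset (Fin (n + 1) → ℤ)),
    (∀ i : ℕ, i < j → Uni m (Ly Z (z₁ + i))) →
    NB (m - j) (Ly Z (z₁ + j)) ⊆ Ly (NB m Z) (z₁ + j)

/-- UNL: `m` unisolvent layers. -/
def UNLStmt : Prop :=
  ∀ (n m : ℕ) (z₁ : ℤ) (Z : Finset (Fin (n + 1) → ℤ)),
    (∀ i : ℕ, i < m → Uni m (Ly Z (z₁ + i))) → Uni m Z

/-- WID: wide layers. -/
def WIDStmt : Prop :=
  ∀ (n m : ℕ) (w z : ℤ) (Z : Finset (Fin (n + 1) → ℤ)), 1 ≤ m → Inv w Z →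
    (Wd m w Z z → Uni m (Ly Z z)) ∧
    (∀ z', z ≤ z' → (m : ℤ) ≤ w - z' → Wd m w Z z → Wd m w Z z') ∧
    (Wd m w (NB m Z) z → Wd m w Z z)

/-- PRJ: projection. -/
def PRJStmt : Prop :=
  ∀ (n M c : ℕ) (w : ℤ) (L : Finset (Fin (n + 1) → ℤ)),
    (∀ v ∈ L, 1 ≤ w - ∑ i, v i ∧ w - ∑ i, v i ≤ c + 1) →
    (NB M L).image it ⊆ NB (M - c) (L.image it)

/-! ### numbers -/

/-- NUA: the number of points of a simplex. -/
def NUAStmt : Prop :=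
  ∀ n w : ℕ, (Sx n (w + 1)).card = (w + n).choose n ∧ ∀ x : ℤ, x ≤ 0 → Sx n x = ∅

/-- NUB: bounds for the number of points of a simplex. -/
def NUBStmt : Prop :=
  ∀ n w : ℕ, 1 ≤ w → w ^ n ≤ n.factorial * (Sx n w).card ∧
    n.factorial * (Sx n w).card ≤ (n + 1) ^ n * w ^ n

/-- NUC: the number of points with small slack. -/
def NUCStmt : Prop :=
  ∀ (n b : ℕ) (w : ℤ) (L : Finset (Fin (n + 1) → ℤ)), L ⊆ Sx (n + 1) w →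
    (∀ v ∈ L, w - ∑ i, v i ≤ b) → L.card ≤ b * (Sx n w).card

/-! ### the process -/

/-- ITE: iteration, monotonicity. -/
def ITEStmt : Prop :=
  ∀ (n m μ : ℕ) (L : ℕ → Finset (Fin n → ℤ)), μ ≤ m → (∀ t, L (t + 1) ⊆ NB m (L t)) →
    ∀ (t : ℕ) (Z : Finset (Fin n → ℤ)), L 0 ⊆ Z → L t ⊆ (NB μ)^[t] Z

/-- CRU: the crude bound. -/
def CRUStmt : Prop :=
  ∀ n : ℕ, ∃ c : ℕ, ∀ (t μ : ℕ) (w : ℤ), 1 ≤ μ → w ≤ t * μ → (NB μ)^[c * t ^ n] (Sx n w) = ∅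

/-- CRX: the crude bound for a region which starts at the layer `z₀`. -/
def CRXStmt : Prop :=
  ∀ n : ℕ, ∃ c : ℕ, ∀ (t μ : ℕ) (w z₀ : ℤ) (Z : Finset (Fin (n + 1) → ℤ)), 1 ≤ μ →
    w - z₀ ≤ t * μ → Z ⊆ Sx (n + 1) w → (∀ a ∈ Z, z₀ ≤ a 0) →
    (NB μ)^[c * t ^ (n + 1)] Z = ∅

/-- LIF: the life time of a thin layer (of dimension `n + 1`). -/
def LIFStmt : Prop :=
  ∀ n : ℕ, ∃ c : ℕ, ∀ (t m M : ℕ) (w : ℤ) (L : ℕ → Finset (Fin (n + 1) → ℤ)), 1 ≤ m →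
    m ≤ 2 * M → w ≤ t * m → L 0 ⊆ Sx (n + 1) w → (∀ v ∈ L 0, w - ∑ i, v i < m) →
    (∀ i, Up w (L i)) → (∀ i, L (i + 1) ⊆ NB M (L i)) → L (c * t ^ n) = ∅

/-- SAN: if the layer `z` is not empty, then the layer `z + 2 m` is wide. -/
def SANStmt : Prop :=
  ∀ n : ℕ, ∃ K : ℕ, 4 ≤ K ∧ ∀ (m p : ℕ) (w z : ℤ), 1 ≤ m → (Ly (Zp (n + 1) m w p) z).Nonempty →
    K * m ≤ w - z → Wd m w (Zp (n + 1) m w p) (z + 2 * m)

/-- END: the theorem on the process. -/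
def ENDStmt : Prop :=
  ∀ n : ℕ, ∃ C : ℕ, ∀ (m s : ℕ) (w : ℤ), 1 ≤ m →
    (Sx (n + 2) w).card ≤ s * (Sx (n + 2) m).card → (NB m)^[s + C] (Sx (n + 2) w) = ∅

end Pool.ALN
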