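import Pool.Agent.H7.ALN.S1
import Pool.Agent.H49.TRN.S1

/-!
# ALN: from the process to the generic `k`-rank (statements)
-/

set_option autoImplicit false

namespace Pool.ALN

open MvPolynomial Pool.FOS

/-- The value of a monomial (integral exponents). -/
noncomputable def mo {n : ℕ} (P : Fin n → ℂ) (a : Fin n → ℤ) : ℂ := ∏ j, P j ^ a j

/-- `s` points of multiplicity `m` suffice for Laurent polynomials with exponents in `Z`. -/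
def Cov (n m s : ℕ) (Z : Finset (Fin n → ℤ)) : Prop :=
  ∃ P : Fin s → Fin n → ℂ, (∀ i j, P i j ≠ 0) ∧ ∀ c : (Fin n → ℤ) → ℂ,
    (∀ i, ∀ f ∈ Pf n m, ∑ a ∈ Z, c a * f a * mo (P i) a = 0) → ∀ a ∈ Z, c a = 0

/-- KEY: a system which determines the values on `D` bounds them by the values on `E`. -/
def KEYStmt : Prop :=
  ∀ (n : ℕ) (D E : Finset (Fin n → ℤ)) (S : Set ((Fin n → ℤ) → ℂ)), Disjoint D E →
    (∀ c : (Fin n → ℤ) → ℂ, (∀ g ∈ S, ∑ a ∈ D, c a * g a = 0) → ∀ a ∈ D, c a = 0) →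
    ∃ C : ℝ, 0 < C ∧ ∀ c : (Fin n → ℤ) → ℂ, (∀ g ∈ S, ∑ a ∈ D ∪ E, c a * g a = 0) →
      ∀ M : ℝ, 0 ≤ M → (∀ b ∈ E, ‖c b‖ ≤ M) → ∀ a ∈ D, ‖c a‖ ≤ C * M

/-- WGT: weights which give the lexicographic order on a finite set. -/
def WGTStmt : Prop :=
  ∀ (n : ℕ) (Z : Finset (Fin n → ℤ)), ∃ M : Fin n → ℤ, ∀ a ∈ Z, ∀ b ∈ Z, lx a b →
    ∑ i, M i * a i < ∑ i, M i * b i

/-- REG: reduction by one point `(T ^ (- M i))`, `T` large, general form. -/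
def REGStmt : Prop :=
  ∀ (n m s : ℕ) (Z U : Finset (Fin n → ℤ)) (M : Fin n → ℤ), U ⊆ Z →
    (∀ u ∈ U, ∃ q ∈ Pf n m, q u = 1 ∧
      ∀ a ∈ Z, a ≠ u → (a ∈ U ∨ ∑ i, M i * a i ≤ ∑ i, M i * u i) → q a = 0) →
    Cov n m s (Z \ U) → Cov n m (s + 1) Z

/-- RED: reduction by one point, for the set `B m Z`. -/
def REDStmt : Prop :=
  ∀ (n m s : ℕ) (Z : Finset (Fin n → ℤ)), Cov n m s (NB m Z) → Cov n m (s + 1) Z

/-- CVI: the process. -/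
def CVIStmt : Prop :=
  ∀ (n m s : ℕ) (Z : Finset (Fin n → ℤ)), (NB m)^[s] Z = ∅ → Cov n m s Z

/-- DIF: the conditions at a point. -/
def DIFStmt : Prop :=
  ∀ (n m : ℕ) (P : Fin n → ℂ) (A : MvPolynomial (Fin n) ℂ), A ∈ mI P ^ m → ∀ f ∈ Pf n m,
    ∑ a ∈ A.support, coeff a A * f (fun i => (a i : ℤ)) * ∏ i, P i ^ a i = 0

/-- VNT: the vanishing theorem. -/
def VNTStmt : Prop :=
  ∀ n m s D : ℕ, Cov n m s (Sx n (D + 1)) → ∃ P : Fin s → Fin n → ℂ,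
    ∀ A : MvPolynomial (Fin n) ℂ, A.totalDegree ≤ D → (∀ i, A ∈ mI (P i) ^ m) → A = 0

/-- GEN: from the simplex to the general form. -/
def GENStmt : Prop :=
  ∀ p k d s : ℕ, 1 ≤ k → Cov (p + 1) (d + 1) s (Sx (p + 1) ((k * d : ℕ) + 1)) →
    GenLe (p + 2) k d s

/-- CNT: the number of monomials. -/
def CNTStmt : Prop :=
  ∀ n d : ℕ, Nat.card {m : Fin (n + 1) →₀ ℕ // m.degree = d} = (d + n).choose n

/-- RES: the result. -/
def RESStmt : Prop :=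
  ∀ n : ℕ, ∃ C : ℕ, ∀ k d s : ℕ, 1 ≤ k →
    Nat.card {m : Fin (n + 3) →₀ ℕ // m.degree = k * d} ≤
      s * Nat.card {m : Fin (n + 3) →₀ ℕ // m.degree = d} → GenLe (n + 3) k d (s + C)

end Pool.ALN
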