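import Pool.Agent.H7.ALN.Bas

/-!
# ALN: row SAN (if the layer `z` is not empty, then the layer `z + 2 m` is wide)
-/

set_option autoImplicit false

namespace Pool.ALN

theorem Zp_inv (hINV : INVStmt) (n m : ℕ) (w : ℤ) (p : ℕ) : Inv w (Zp n m w p) := by
  induction p with
  | zero => exact (hINV n m w).1
  | succ p ih =>
    rw [Zp_succ]
    exact (hINV n m w).2.1 _ ih

theorem wd_anti (hINV : INVStmt) (hWID : WIDStmt) {n m : ℕ} {w z : ℤ} (hm : 1 ≤ m) {p q : ℕ}
    (h : p ≤ q) (hq : Wd m w (Zp n m w q) z) : Wd m w (Zp n m w p) z := by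
  induction q, h using Nat.le_induction with
  | base => exact hq
  | succ q _ ih =>
    rw [Zp_succ] at hq
    exact ih ((hWID n m w z (Zp n m w q) hm (Zp_inv hINV n m w q)).2.2 hq)

theorem wd_up (hINV : INVStmt) (hWID : WIDStmt) {n m : ℕ} {w z z' : ℤ} (hm : 1 ≤ m) {p : ℕ}
    (h : z ≤ z') (h' : (m : ℤ) ≤ w - z') (hq : Wd m w (Zp n m w p) z) :
    Wd m w (Zp n m w p) z' :=
  (hWID n m w z (Zp n m w p) hm (Zp_inv hINV n m w p)).2.1 z' h h' hq

/-- One step removes at most `card (Sx n m)` points from a layer. -/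
theorem ly_card (hBMN : BMNStmt) (hBCD : BCDStmt) (hLAU : LAUStmt) (n m : ℕ) (w y : ℤ) (p : ℕ) :
    ∀ k : ℕ, (Ly (Zp n m w p) y).card ≤
      (Ly (Zp n m w (p + k)) y).card + k * (Sx n m).card := by
  intro k
  induction k with
  | zero => simp
  | succ k ih =>
    have h1 := hLAU n m 0 y (Zp n m w (p + k)) (fun i hi => absurd hi (Nat.not_lt_zero i))
    rw [Nat.sub_zero, Nat.cast_zero, add_zero, ← Zp_succ] at h1
    have h2 := Finset.card_le_card h1
    have h3 := (hBMN n).2.2.2 m (Ly (Zp n m w (p + k)) y)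
    have h4 := (hBCD n m (Ly (Zp n m w (p + k)) y)).1
    have h5 : p + (k + 1) = p + k + 1 := by omega
    rw [h5]
    have h6 : (k + 1) * (Sx n m).card = k * (Sx n m).card + (Sx n m).card := by ring
    omega

/-- A layer above `m` wide layers is not touched. -/
theorem ly_full (hINV : INVStmt) (hWID : WIDStmt) (hBMN : BMNStmt) (hLAU : LAUStmt) (n m : ℕ)
    (w y : ℤ) (hm : 1 ≤ m) (hy : (2 * m : ℤ) ≤ w - y) (q : ℕ)
    (h : ∀ p < q, Wd m w (Zp n m w p) y) : Ly (Sx (n + 1) w) (y + m) ⊆ Ly (Zp n m w q) (y + m) := by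
  induction q with
  | zero => exact fun _ h => h
  | succ q ih =>
    refine (ih fun p hp => h p (by omega)).trans ?_
    have h1 := hLAU n m m y (Zp n m w q) ?_
    · rw [Nat.sub_self, (hBMN n).2.2.1, ← Zp_succ] at h1
      exact h1
    · intro i hi
      refine (hWID n m w (y + i) (Zp n m w q) hm (Zp_inv hINV n m w q)).1 ?_
      refine wd_up hINV hWID hm (by omega) (by omega) (h q (Nat.lt_succ_self q))

/-- One round: thin layers die. -/
theorem rnd (hINV : INVStmt) (hBMN : BMNStmt) (hLAL : LALStmt) (n m c t h : ℕ) (w y : ℤ)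
    (hc : ∀ (t m M : ℕ) (w : ℤ) (L : ℕ → Finset (Fin (n + 1) → ℤ)), 1 ≤ m →
      m ≤ 2 * M → w ≤ t * m → L 0 ⊆ Sx (n + 1) w → (∀ v ∈ L 0, w - ∑ i, v i < m) →
      (∀ i, Up w (L i)) → (∀ i, L (i + 1) ⊆ NB M (L i)) → L (c * t ^ n) = ∅)
    (hm : 1 ≤ m) (hh : 2 * h ≤ m) (ht : w - y ≤ t * m) (q : ℕ)
    (h0 : ∀ a ∈ Zp (n + 1) m w q, y ≤ a 0)
    (h1 : ∀ j : ℕ, j ≤ h → ¬ Wd m w (Zp (n + 1) m w q) (y + j)) :
    ∀ a ∈ Zp (n + 1) m w (q + c * t ^ n), y + h + 1 ≤ a 0 := by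
  intro a ha
  by_contra hcon
  have h2 : y ≤ a 0 := h0 a (Zp_anti _ _ _ (Nat.le_add_right _ _) ha)
  obtain ⟨j, hj⟩ : ∃ j : ℕ, a 0 = y + j := ⟨(a 0 - y).toNat, by omega⟩
  have hjh : j ≤ h := by omega
  have h3 := hc t m (m - h) (w - (y + j)) (fun i => Ly (Zp (n + 1) m w (q + i)) (y + j)) hm
    (by omega) (by omega) ?_ ?_ ?_ ?_
  · have h4 := tl_mem_Ly ha
    rw [hj] at h4
    rw [h3] at h4
    exact absurd h4 (Finset.notMem_empty _)
  · exact (hINV (n + 1) m w).2.2.2.2 _ _ (Zp_inv hINV _ _ _ _)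
  · intro v hv
    by_contra hv'
    exact h1 j hjh ⟨v, hv, by omega⟩
  · intro i
    exact (hINV (n + 1) m w).2.2.2.1 _ _ (Zp_inv hINV _ _ _ _)
  · intro i
    have h5 := hLAL (n + 1) m j y (Zp (n + 1) m w (q + i)) fun b hb =>
      h0 b (Zp_anti _ _ _ (Nat.le_add_right _ _) hb)
    rw [← Zp_succ] at h5
    exact h5.trans ((hBMN (n + 1)).2.1 _ _ _ (by omega))

theorem t_san (hINV : INVStmt) (hWID : WIDStmt) (hBMN : BMNStmt) (hBCD : BCDStmt)
    (hLAL : LALStmt) (hLAU : LAUStmt) (hNUB : NUBStmt) (hLIF : LIFStmt) : SANStmt := by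
  intro n
  obtain ⟨c, hc⟩ := hLIF n
  obtain ⟨A, hA⟩ : ∃ A : ℕ, A = (n + 2) ^ (n + 1) := ⟨_, rfl⟩
  refine ⟨2 * c * A * 2 ^ n + 8, by omega, ?_⟩
  intro m p w z hm
  obtain ⟨K, hK⟩ : ∃ K : ℕ, K = 2 * c * A * 2 ^ n + 8 := ⟨_, rfl⟩
  rw [← hK]
  revert z
  induction p using Nat.strong_induction_on with
  | _ p IH =>
  intro z hne hz
  have hK8 : 8 ≤ K := by omega
  have hmZ : (1 : ℤ) ≤ m := by exact_mod_cast hm
  have hz8 : (8 * m : ℤ) ≤ w - z := by
    have : (8 : ℤ) * m ≤ (K : ℤ) * m := by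
      have : (8 : ℤ) ≤ K := by exact_mod_cast hK8
      nlinarith
    linarith
  have hz0 : 0 ≤ z := by
    obtain ⟨v, hv⟩ := hne
    have h1 := (Zp_inv hINV (n + 1) m w p).sub (mem_Ly.1 hv)
    exact (mem_Sx.1 h1).1 0
  by_contra hnw
  -- the first time with `z + m` thin
  have hex : ∃ q, ¬ Wd m w (Zp (n + 1) m w q) (z + m) :=
    ⟨p, fun h => hnw (wd_up hINV hWID hm (by omega) (by omega) h)⟩
  classical
  obtain ⟨q, hq, hqmin⟩ : ∃ q, ¬ Wd m w (Zp (n + 1) m w q) (z + m) ∧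
      ∀ p' < q, Wd m w (Zp (n + 1) m w p') (z + m) :=
    ⟨Nat.find hex, Nat.find_spec hex, fun p' hp' => not_not.1 (Nat.find_min hex hp')⟩
  have hqp : q ≤ p := by
    by_contra h
    exact hnw (wd_up hINV hWID hm (by omega) (by omega) (hqmin p (by omega)))
  obtain ⟨k, hk⟩ : ∃ k, p = q + k := ⟨p - q, by omega⟩
  -- numbers
  obtain ⟨x, hx⟩ : ∃ x : ℕ, x = (Sx (n + 1) m).card := ⟨_, rfl⟩
  have hcount : (Sx (n + 1) (w - z - 3 * m + 1)).card ≤ k * x := by
    have h1 := ly_full hINV hWID hBMN hLAU (n + 1) m w (z + m) hm (by omega) q hqmin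
    have h2 := ly_card hBMN hBCD hLAU (n + 1) m w (z + m + m) q k
    rw [← hk, ← hx] at h2
    have h3 : Disjoint (Sx (n + 1) (w - z - 3 * m + 1)) (Ly (Zp (n + 1) m w p) (z + m + m)) := by
      rw [Finset.disjoint_left]
      intro v hv hv'
      apply hnw
      rw [show z + m + m = z + 2 * m by ring] at hv'
      refine ⟨v, hv', ?_⟩
      have := (mem_Sx.1 hv).2
      omega
    have h4 : Sx (n + 1) (w - z - 3 * m + 1) ∪ Ly (Zp (n + 1) m w p) (z + m + m) ⊆
        Ly (Zp (n + 1) m w q) (z + m + m) := by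
      refine Finset.union_subset (subset_trans ?_ h1) ?_
      · intro v hv
        rw [mem_Sx] at hv
        rw [mem_Ly, mem_Sx, sum_cn]
        refine ⟨fun i => ?_, by omega⟩
        refine Fin.cases ?_ (fun j => ?_) i
        · show 0 ≤ z + m + m
          omega
        · exact hv.1 j
      · exact Ly_mono (Zp_anti _ _ _ (by omega)) _
    have h5 := Finset.card_le_card h4
    rw [Finset.card_union_of_disjoint h3] at h5
    omega
  obtain ⟨T, hT1, hT2⟩ : ∃ T : ℕ, (T : ℤ) * m ≤ w - z ∧ w - z < (T + 1) * m := by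
    refine ⟨((w - z) / m).toNat, ?_, ?_⟩
    · have h1 : 0 ≤ (w - z) / m := Int.ediv_nonneg (by omega) (by omega)
      rw [Int.toNat_of_nonneg h1]
      exact Int.ediv_mul_le _ (by omega)
    · have h1 : 0 ≤ (w - z) / m := Int.ediv_nonneg (by omega) (by omega)
      rw [Int.toNat_of_nonneg h1]
      exact Int.lt_ediv_add_one_mul_self _ (by omega)
  have hTK : K ≤ T := by
    by_contra h
    have h1 : (T : ℤ) + 1 ≤ K := by exact_mod_cast (by omega : T + 1 ≤ K)
    nlinarith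
  obtain ⟨r, hr⟩ : ∃ r : ℕ, r = c * (T + 2) ^ n := ⟨_, rfl⟩
  have hrk : 2 * r ≤ k := by
    obtain ⟨T', hT'⟩ : ∃ T', T = T' + 3 := ⟨T - 3, by omega⟩
    have h1 : (Sx (n + 1) ((T' * m : ℕ) : ℤ)).card ≤ k * x := by
      refine le_trans (Finset.card_le_card (Sx_mono ?_)) hcount
      rw [hT'] at hT1
      push_cast at hT1 ⊢
      nlinarith
    have h2 := (hNUB (n + 1) (T' * m) (Nat.mul_pos (by omega) (by omega))).1
    have h3 := (hNUB (n + 1) m hm).2
    rw [← hx] at h3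
    have hx1 : 1 ≤ x := by
      rw [hx]
      refine Finset.card_pos.2 ⟨0, mem_Sx.2 ⟨fun _ => le_refl _, ?_⟩⟩
      simp only [Pi.zero_apply, Finset.sum_const_zero]
      omega
    have h4 : (T' * m) ^ (n + 1) ≤ k * ((n + 2) ^ (n + 1) * m ^ (n + 1)) := by
      calc (T' * m) ^ (n + 1) ≤ (n + 1).factorial * (Sx (n + 1) ((T' * m : ℕ) : ℤ)).card := h2
        _ ≤ (n + 1).factorial * (k * x) := Nat.mul_le_mul_left _ h1
        _ = k * ((n + 1).factorial * x) := by ring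
        _ ≤ k * ((n + 1 + 1) ^ (n + 1) * m ^ (n + 1)) := Nat.mul_le_mul_left _ h3
    rw [← hA, mul_pow] at h4
    have h5 : T' ^ (n + 1) ≤ k * A := by
      have h6 : T' ^ (n + 1) * m ^ (n + 1) ≤ (k * A) * m ^ (n + 1) := by
        calc T' ^ (n + 1) * m ^ (n + 1) ≤ k * (A * m ^ (n + 1)) := h4
          _ = (k * A) * m ^ (n + 1) := by ring
      exact Nat.le_of_mul_le_mul_right h6 (by positivity)
    have hA1 : 1 ≤ A := by
      rw [hA]
      exact Nat.one_le_pow _ _ (by omega)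
    have h7 : (T + 2) ^ n ≤ 2 ^ n * T' ^ n := by
      rw [← mul_pow]
      exact Nat.pow_le_pow_left (by omega) n
    have h8 : 2 * r * A ≤ k * A := by
      refine le_trans ?_ h5
      rw [pow_succ, hr]
      calc 2 * (c * (T + 2) ^ n) * A ≤ 2 * (c * (2 ^ n * T' ^ n)) * A := by gcongr
        _ = T' ^ n * (2 * c * A * 2 ^ n) := by ring
        _ ≤ T' ^ n * T' := Nat.mul_le_mul_left _ (by omega)
    exact Nat.le_of_mul_le_mul_right h8 hA1
  -- at time `q` everything is above `z - m`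
  have hlow : ∀ a ∈ Zp (n + 1) m w q, z - m + 1 ≤ a 0 := by
    intro a ha
    by_contra hcon
    have hqp' : q < p := by
      rcases Nat.lt_or_ge q p with h | h
      · exact h
      · have hk0 : k = 0 := by omega
        rw [hk0, zero_mul] at hcount
        have h1 : (0 : Fin (n + 1) → ℤ) ∈ Sx (n + 1) (w - z - 3 * m + 1) := by
          refine mem_Sx.2 ⟨fun _ => le_refl _, ?_⟩
          simp only [Pi.zero_apply, Finset.sum_const_zero]
          omega
        have h2 := Finset.card_pos.2 ⟨_, h1⟩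
        omega
    have h1 := IH q hqp' (a 0) ⟨tl a, tl_mem_Ly ha⟩ (by omega)
    exact hq (wd_up hINV hWID hm (by omega) (by omega) h1)
  have hthin : ∀ y : ℤ, y ≤ z + m → ¬ Wd m w (Zp (n + 1) m w q) y := fun y hy h =>
    hq (wd_up hINV hWID hm hy (by omega) h)
  obtain ⟨h, hh⟩ : ∃ h : ℕ, h = m / 2 := ⟨_, rfl⟩
  have r1 := rnd hINV hBMN hLAL n m c (T + 2) h w (z - m + 1) hc hm (by omega)
    (by push_cast; nlinarith) q hlow (fun j hj => hthin _ (by omega))
  have r2 := rnd hINV hBMN hLAL n m c (T + 2) h w (z - m + 1 + h + 1) hc hm (by omega)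
    (by push_cast; nlinarith) (q + c * (T + 2) ^ n) r1
    (fun j hj hW => hthin (z - m + 1 + h + 1 + j) (by omega)
      (wd_anti hINV hWID hm (Nat.le_add_right _ _) hW))
  obtain ⟨v, hv⟩ := hne
  have h9 := r2 (cn z v) (Zp_anti _ _ _ (by rw [← hr]; omega) (mem_Ly.1 hv))
  rw [cn_zero] at h9
  omega

end Pool.ALN
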